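import Mathlib
import Pool.Agent.H32.Mem

namespace Pool.Agent.Results.MP_4814b8_lc.BothSides

open Pool.Agent.H32.Mem

theorem result : ∃ (C : Type) (_ : Fintype C) (_ : Nonempty C) (W : Set (ℕ → C)),
    GenFin W ∧ GenFin Wᶜ ∧ ¬ ChrFin W := 
  ⟨Col, inferInstance, ⟨.a⟩, W, gen_W, gen_notW, not_chr⟩

end Pool.Agent.Results.MP_4814b8_lc.BothSides
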